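import Mathlib

set_option autoImplicit false

/-! Project BG2 (helper640), package U3 (safety copy): the real analysis, Mathlib only. -/

namespace Pool.Agent.U780.BG

open Filter Topology

theorem core (b e kk : ℕ → ℕ) (hb : Monotone b) (hs : ∀ n, n ≤ e (kk n))
    (hk : ∀ n k, n ≤ e k → kk n ≤ k) (hp : ∀ i j, 2 ^ j * e i ≤ e (i + j))
    (hU : ∃ C : ℝ, 0 < C ∧ ∀ k : ℕ,
      (b (e k) : ℝ) ≤ Real.exp (C * 2 ^ k * (1 + Real.log ((k : ℝ) + 2))))
    (hL : ∀ ε : ℝ, 0 < ε → ∃ C : ℝ, 0 < C ∧ ∀ k N : ℕ, C * (2 : ℝ) ^ (ε * k) * e k ≤ N →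
      2 ^ 2 ^ k ≤ b N) :
    Tendsto (fun n : ℕ => Real.log (Real.log (b n)) / (kk n : ℝ)) atTop (𝓝 (Real.log 2)) := by
  have hmono : Monotone e := by
    intro i j hij
    obtain ⟨d, rfl⟩ := Nat.exists_eq_add_of_le hij
    exact le_trans (Nat.le_mul_of_pos_left _ (by positivity)) (hp i d)
  have hkk : Tendsto kk atTop atTop := by
    rw [tendsto_atTop]
    intro K
    filter_upwards [eventually_gt_atTop (e K)] with n hn
    by_contra hcon
    push Not at hcon
    have := (hs n).trans (hmono hcon.le)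
    omega
  have hkR : Tendsto (fun n => (kk n : ℝ)) atTop atTop := tendsto_natCast_atTop_atTop.comp hkk
  have hl2 : 0 < Real.log 2 := Real.log_pos (by norm_num)
  have lower : ∀ ε : ℝ, 0 < ε → ∃ K : ℝ, ∀ᶠ n in atTop, 2 ≤ b n ∧
      Real.log 2 / (1 + ε) + K / kk n ≤ Real.log (Real.log (b n)) / (kk n : ℝ) := by
    intro ε hε
    obtain ⟨C, hC, hCL⟩ := hL ε hε
    obtain ⟨c, hc⟩ := pow_unbounded_of_one_lt C (by norm_num : (1 : ℝ) < 2)
    refine ⟨(-(1 + c) / (1 + ε) - 1) * Real.log 2 + Real.log (Real.log 2), ?_⟩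
    filter_upwards [hkk.eventually_ge_atTop (c + 2)] with n hn
    obtain ⟨k, hkn⟩ : ∃ k, kk n = k + 1 + c := ⟨kk n - 1 - c, by omega⟩
    obtain ⟨k', hk'⟩ : ∃ k' : ℕ, k' = ⌊(k : ℝ) / (1 + ε)⌋₊ := ⟨_, rfl⟩
    have h1 : (k' : ℝ) ≤ k / (1 + ε) := by rw [hk']; exact Nat.floor_le (by positivity)
    have h2 : (k : ℝ) / (1 + ε) < k' + 1 := by rw [hk']; exact Nat.lt_floor_add_one _
    have h3 : (k' : ℝ) * (1 + ε) ≤ k := by rwa [le_div_iff₀ (by linarith)] at h1
    have h4 : k' ≤ k := by
      have h0 : (0 : ℝ) ≤ k' * ε := by positivity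
      have : (k' : ℝ) ≤ k := by linarith
      exact_mod_cast this
    have h5 : C * (2 : ℝ) ^ (ε * k') * e k' ≤ n := by
      have e1 : C * (2 : ℝ) ^ (ε * k') ≤ 2 ^ (k + c - k' : ℕ) := by
        calc C * (2 : ℝ) ^ (ε * k') ≤ 2 ^ c * (2 : ℝ) ^ (ε * k') := by gcongr
          _ = (2 : ℝ) ^ ((c : ℝ) + ε * k') := by
              rw [Real.rpow_add (by norm_num), Real.rpow_natCast]
          _ ≤ (2 : ℝ) ^ (((k + c - k' : ℕ) : ℝ)) := by
              apply Real.rpow_le_rpow_of_exponent_le (by norm_num)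
              rw [Nat.cast_sub (by omega)]
              push_cast
              linarith
          _ = _ := Real.rpow_natCast _ _
      have e2 : 2 ^ (k + c - k') * e k' ≤ e (k + c) := by
        have := hp k' (k + c - k')
        rwa [show k' + (k + c - k') = k + c by omega] at this
      have e3 : e (k + c) < n := by
        by_contra hcon
        push Not at hcon
        have := hk n (k + c) hcon
        omega
      calc C * (2 : ℝ) ^ (ε * k') * e k' ≤ 2 ^ (k + c - k' : ℕ) * e k' := by gcongr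
        _ ≤ e (k + c) := by exact_mod_cast e2
        _ ≤ n := by exact_mod_cast e3.le
    have h6 := hCL k' n h5
    have h7 : (2 : ℝ) ^ (2 ^ k') ≤ b n := by exact_mod_cast h6
    have h8 : 2 ^ k' * Real.log 2 ≤ Real.log (b n) := by
      have := Real.log_le_log (by positivity) h7
      rw [Real.log_pow] at this
      push_cast at this
      exact this
    have h9 : k' * Real.log 2 + Real.log (Real.log 2) ≤ Real.log (Real.log (b n)) := by
      have := Real.log_le_log (by positivity) h8
      rwa [Real.log_mul (by positivity) hl2.ne', Real.log_pow] at this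
    refine ⟨?_, ?_⟩
    · have : 2 ^ 1 ≤ 2 ^ 2 ^ k' := Nat.pow_le_pow_right (by norm_num) (Nat.one_le_two_pow)
      omega
    · have hkpos : (0 : ℝ) < kk n := by rw [hkn]; positivity
      have hne : (1 + ε) ≠ 0 := by positivity
      have e4 : Real.log 2 / (1 + ε) +
          ((-(1 + c) / (1 + ε) - 1) * Real.log 2 + Real.log (Real.log 2)) / kk n =
          (Real.log 2 / (1 + ε) * kk n +
            ((-(1 + c) / (1 + ε) - 1) * Real.log 2 + Real.log (Real.log 2))) / kk n := by
        rw [eq_div_iff hkpos.ne', add_mul, div_mul_cancel₀ _ hkpos.ne']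
      rw [e4]
      apply div_le_div_of_nonneg_right _ hkpos.le
      have e5 : Real.log 2 / (1 + ε) * (kk n : ℝ) +
            ((-(1 + c) / (1 + ε) - 1) * Real.log 2 + Real.log (Real.log 2)) =
            ((k : ℝ) / (1 + ε) - 1) * Real.log 2 + Real.log (Real.log 2) := by
        rw [hkn]
        push_cast
        ring
      rw [e5]
      have e6 : ((k : ℝ) / (1 + ε) - 1) * Real.log 2 ≤ k' * Real.log 2 :=
        mul_le_mul_of_nonneg_right (by linarith) hl2.le
      linarith
  rw [tendsto_order]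
  constructor
  · intro a ha
    have h1 : Tendsto (fun ε : ℝ => Real.log 2 / (1 + ε)) (𝓝[>] 0) (𝓝 (Real.log 2)) := by
      have : Tendsto (fun ε : ℝ => Real.log 2 / (1 + ε)) (𝓝 0) (𝓝 (Real.log 2 / (1 + 0))) := by
        apply Tendsto.div tendsto_const_nhds (tendsto_const_nhds.add tendsto_id) (by norm_num)
      rw [add_zero, div_one] at this
      exact this.mono_left nhdsWithin_le_nhds
    obtain ⟨ε, hε1, hε⟩ := ((h1.eventually (lt_mem_nhds ha)).and self_mem_nhdsWithin).exists
    obtain ⟨K, hK⟩ := lower ε hε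
    have h2 : Tendsto (fun n => Real.log 2 / (1 + ε) + K / (kk n : ℝ)) atTop
        (𝓝 (Real.log 2 / (1 + ε))) := by
      have := (tendsto_const_nhds (x := Real.log 2 / (1 + ε))).add (hkR.const_div_atTop K)
      simpa using this
    filter_upwards [hK, h2.eventually (lt_mem_nhds hε1)] with n h3 h4
    exact h4.trans_le h3.2
  · intro a ha
    obtain ⟨C, hC, hCU⟩ := hU
    obtain ⟨K, hK⟩ := lower 1 one_pos
    have t1 : Tendsto (fun x : ℝ => Real.log x / x) atTop (𝓝 0) :=
      Real.isLittleO_log_id_atTop.tendsto_div_nhds_zero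
    have h1 : Tendsto (fun n => Real.log 2 + ((Real.log C + Real.log 2) / (kk n : ℝ) +
        Real.log (kk n : ℝ) / (kk n : ℝ))) atTop (𝓝 (Real.log 2)) := by
      have := (tendsto_const_nhds (x := Real.log 2)).add
        ((hkR.const_div_atTop (Real.log C + Real.log 2)).add (t1.comp hkR))
      simpa using this
    filter_upwards [hK, h1.eventually (gt_mem_nhds ha), hkk.eventually_ge_atTop 2] with n h3 h4 h5
    refine lt_of_le_of_lt ?_ h4
    have hkpos : (2 : ℝ) ≤ kk n := by exact_mod_cast h5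
    have u1 : (b n : ℝ) ≤ Real.exp (C * 2 ^ (kk n) * (1 + Real.log ((kk n : ℝ) + 2))) :=
      le_trans (by exact_mod_cast hb (hs n)) (hCU (kk n))
    have hb0 : (2 : ℝ) ≤ b n := by exact_mod_cast h3.1
    have u2 : Real.log (b n) ≤ C * 2 ^ (kk n) * (1 + Real.log ((kk n : ℝ) + 2)) := by
      rw [Real.log_le_iff_le_exp (by linarith)]
      exact u1
    have u3 : 1 + Real.log ((kk n : ℝ) + 2) ≤ 2 * kk n := by
      have := Real.log_le_sub_one_of_pos (show (0 : ℝ) < kk n + 2 by linarith)
      linarith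
    have u4 : Real.log (b n) ≤ C * 2 ^ kk n * (2 * kk n) := u2.trans (by gcongr)
    have u5 : 0 < Real.log (b n) := Real.log_pos (by linarith)
    have u6 := Real.log_le_log u5 u4
    rw [Real.log_mul (by positivity) (by positivity), Real.log_mul (by positivity) (by positivity),
      Real.log_mul (by positivity) (by positivity), Real.log_pow] at u6
    have hk0 : (0 : ℝ) < kk n := by linarith
    have e7 : Real.log 2 + ((Real.log C + Real.log 2) / (kk n : ℝ) +
        Real.log (kk n : ℝ) / (kk n : ℝ)) =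
        (Real.log C + kk n * Real.log 2 + (Real.log 2 + Real.log (kk n))) / (kk n : ℝ) := by
      field_simp
      ring
    rw [e7]
    exact div_le_div_of_nonneg_right u6 hk0.le

end Pool.Agent.U780.BG
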