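import Pool.Agent.U780.BG.U3C
import Pool.Agent.U640.BG.U3Stm
import Pool.Agent.U640.BG.Fin

set_option autoImplicit false

/-! Project BG2 (helper640), package U3 (safety copy). -/

namespace Pool.Agent.U780.BG

open Pool.Agent.Results.MP_03d093_al.SphereBall Pool.Agent.H776R2.Grig Pool.Agent.H776R2.Om

theorem t_U3 : Pool.Agent.U640.BG.S_U3 := fun ω hU hL =>
  core (ballO ω) (ell ω) (kk ω) (fun _ _ h => ballO_mono ω h) (Pool.Agent.U640.BG.kk_spec ω)
    (Pool.Agent.U640.BG.kk_le ω) (W_ell_pow ω) hU hL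

end Pool.Agent.U780.BG
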